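import Mathlib

set_option autoImplicit false

/-!
# Powerful Mersenne numbers and Wieferich primes of the third power

MP_ae744d_nt (own statement). If `q` is prime and `M_q = 2^q - 1` is powerful, then some prime
`p ≡ 7 (mod 8)` modulo which `2` has order `q` divides `M_q` to an odd power which is at least the
third power, and `2^(p-1) ≡ 1 (mod p^3)`. The prime `q` is determined by `p`, so there are only
finitely many primes `q` with `M_q` powerful if only finitely many primes `p ≡ 7 (mod 8)` satisfy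
`2^(p-1) ≡ 1 (mod p^3)`.
-/

namespace Pool.Agent.Results.MP_ae744d_nt.SuperWieferich

/-- A positive integer `n` is powerful if `p^2` divides `n` for every prime `p` dividing `n`. -/
def IsPowerful (n : ℕ) : Prop := 0 < n ∧ ∀ p : ℕ, p.Prime → p ∣ n → p ^ 2 ∣ n

lemma two_pow_eq_one {q p : ℕ} (hpn : p ∣ 2 ^ q - 1) : (2 : ZMod p) ^ q = 1 := by
  have h1 : ((2 ^ q - 1 : ℕ) : ZMod p) = 0 := (ZMod.natCast_eq_zero_iff _ _).2 hpn
  have h2 : 1 ≤ 2 ^ q := Nat.one_le_two_pow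
  rw [Nat.cast_sub h2] at h1
  push_cast at h1
  exact sub_eq_zero.1 h1

lemma ne_two {q p : ℕ} (hq : q.Prime) (hpn : p ∣ 2 ^ q - 1) : p ≠ 2 := by
  rintro rfl
  have h1 : 2 ∣ 2 ^ q := dvd_pow_self 2 hq.ne_zero
  have h2 : 1 ≤ 2 ^ q := Nat.one_le_two_pow
  omega

lemma order_two {q p : ℕ} (hq : q.Prime) (hp : p.Prime) (hpn : p ∣ 2 ^ q - 1) :
    orderOf (2 : ZMod p) = q := by
  have := Fact.mk hp
  have := Fact.mk hq
  refine orderOf_eq_prime (two_pow_eq_one hpn) ?_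
  intro h
  have h3 : ((1 : ℕ) : ZMod p) = 0 := by
    have : (2 : ZMod p) - 1 = 0 := sub_eq_zero.2 h
    have h4 : (2 : ZMod p) - 1 = ((1 : ℕ) : ZMod p) := by push_cast; ring
    rw [← h4, this]
  rw [ZMod.natCast_eq_zero_iff] at h3
  exact hp.one_lt.ne' (Nat.dvd_one.1 h3)

lemma dvd_pred {q p : ℕ} (hq : q.Prime) (hp : p.Prime) (hpn : p ∣ 2 ^ q - 1) : q ∣ p - 1 := by
  have := Fact.mk hp
  rw [← order_two hq hp hpn]
  refine ZMod.orderOf_dvd_card_sub_one ?_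
  intro h0
  have h1 : ((2 : ℕ) : ZMod p) = 0 := by exact_mod_cast h0
  rw [ZMod.natCast_eq_zero_iff] at h1
  exact ne_two hq hpn ((Nat.prime_dvd_prime_iff_eq hp Nat.prime_two).1 h1)

lemma mod_eight {q p : ℕ} (hq : q.Prime) (hq2 : q ≠ 2) (hp : p.Prime) (hpn : p ∣ 2 ^ q - 1) :
    p % 8 = 1 ∨ p % 8 = 7 := by
  have := Fact.mk hp
  rw [← ZMod.exists_sq_eq_two_iff (ne_two hq hpn)]
  obtain ⟨k, hk⟩ := hq.odd_of_ne_two hq2
  refine ⟨2 ^ (k + 1), ?_⟩
  have h1 := two_pow_eq_one hpn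
  calc (2 : ZMod p) = 2 ^ q * 2 := by rw [h1, one_mul]
    _ = 2 ^ (k + 1) * 2 ^ (k + 1) := by rw [hk]; ring

/-- Some prime `p ≡ 7 (mod 8)` divides `2^q - 1` to an odd power (`q` an odd prime). -/
lemma exists_odd {q : ℕ} (hq : q.Prime) (hq2 : q ≠ 2) :
    ∃ p : ℕ, p.Prime ∧ p ∣ 2 ^ q - 1 ∧ p % 8 = 7 ∧ Odd ((2 ^ q - 1).factorization p) := by
  have hq3 : 3 ≤ q := by
    have := hq.two_le
    omega
  have hn0 : 2 ^ q - 1 ≠ 0 := by
    have : 2 ^ 3 ≤ 2 ^ q := Nat.pow_le_pow_right (by norm_num) hq3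
    omega
  by_contra hcon
  push Not at hcon
  have h1 : ((2 ^ q - 1 : ℕ) : ZMod 8) = 1 := by
    conv_lhs => rw [← Nat.prod_factorization_pow_eq_self hn0]
    rw [Finsupp.prod, Nat.cast_prod]
    refine Finset.prod_eq_one fun p hp => ?_
    have hpp : p.Prime := Nat.prime_of_mem_primeFactors (by simpa using hp)
    have hpd : p ∣ 2 ^ q - 1 := Nat.dvd_of_mem_primeFactors (by simpa using hp)
    rw [Nat.cast_pow]
    rcases mod_eight hq hq2 hpp hpd with h8 | h8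
    · have h9 : ((p : ℕ) : ZMod 8) = 1 := by
        have : ((p : ℕ) : ZMod 8) = ((p % 8 : ℕ) : ZMod 8) := by simp
        rw [this, h8]
        rfl
      rw [h9, one_pow]
    · have h9 : ((p : ℕ) : ZMod 8) = -1 := by
        have : ((p : ℕ) : ZMod 8) = ((p % 8 : ℕ) : ZMod 8) := by simp
        rw [this, h8]
        rfl
      have h10 := hcon p hpp hpd h8
      rw [Nat.not_odd_iff_even] at h10
      rw [h9, h10.neg_one_pow]
  have h2 : ((2 ^ q - 1 : ℕ) : ZMod 8) = -1 := by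
    obtain ⟨k, rfl⟩ := Nat.exists_eq_add_of_le hq3
    rw [Nat.cast_sub Nat.one_le_two_pow, Nat.cast_pow, pow_add]
    have h8 : ((2 : ℕ) : ZMod 8) ^ 3 = 0 := by decide
    rw [h8, zero_mul, Nat.cast_one, zero_sub]
  rw [h1] at h2
  exact absurd h2 (by decide)

/-- If `q` is prime and `2^q - 1` is powerful, then there is a prime `p ≡ 7 (mod 8)` modulo which `2`
has order `q`, which divides `2^q - 1` to an odd power, with `p^3 ∣ 2^q - 1`, and
`2^(p-1) ≡ 1 (mod p^3)`. -/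
theorem result : ∀ q : ℕ, q.Prime → IsPowerful (2 ^ q - 1) →
    ∃ p : ℕ, p.Prime ∧ p % 8 = 7 ∧ orderOf (2 : ZMod p) = q ∧
      Odd (padicValNat p (2 ^ q - 1)) ∧ p ^ 3 ∣ 2 ^ q - 1 ∧ p ^ 3 ∣ 2 ^ (p - 1) - 1 := by
  intro q hq hpow
  have hq2 : q ≠ 2 := by
    rintro rfl
    have h := hpow.2 3 Nat.prime_three (by norm_num)
    norm_num at h
  have hn0 : 2 ^ q - 1 ≠ 0 := hpow.1.ne'
  obtain ⟨p, hp, hpd, h8, hodd⟩ := exists_odd hq hq2
  have h2 : 2 ≤ (2 ^ q - 1).factorization p :=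
    (hp.pow_dvd_iff_le_factorization hn0).1 (hpow.2 p hp hpd)
  have h3 : 3 ≤ (2 ^ q - 1).factorization p := by
    obtain ⟨m, hm⟩ := hodd
    omega
  have h4 : p ^ 3 ∣ 2 ^ q - 1 := (hp.pow_dvd_iff_le_factorization hn0).2 h3
  refine ⟨p, hp, h8, order_two hq hp hpd, ?_, h4, h4.trans ?_⟩
  · rwa [Nat.factorization_def _ hp] at hodd
  · exact Nat.pow_sub_one_dvd_pow_sub_one 2 (dvd_pred hq hp hpd)

end Pool.Agent.Results.MP_ae744d_nt.SuperWieferich
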